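import Pool.Agent.T2H43.LK.Main

/-!
# Complexity is not invariant under Gorenstein linkage

Let `R` be the Artinian Gorenstein ring `ℚ ⊕ V ⊕ V* ⊕ ℚ`, `V = ℚ^6`, of the cubic form
`x1 x2 x5 + (x1 - 2 x2) x3²/2 + (x1 - x2) x4 x6 + x3 x6²/2 + x4³/6`, and let
`d_β = [[x1, β x3], [x4, x2]]`.  Then `d_β d_{2β} = 0`, and `ker d_β = im d_{2β}` on `R²` if
`β, 2β ≠ -1`; for `β = -1` the pair `(x4, x6)` is an extra element of the kernel.  So
`U = im d_{-2}` has all Betti numbers equal to `2`, whereas `V = U^⊥ = ker (d_{-2})^T` has length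
`14` and three generators, which forces `β_n(V) ≥ 3 · 2^n`.

Over `S = R[y,z]/(y²,z²)` the ideals `J = {b y + c z + d y z : (b, c) ∈ U}` and
`I = {b y + c z + d y z : (c, b) ∈ V}` are the annihilators of each other, that is, they are linked
by the ideal `0`; and `β_n(J) ≤ (n+1)(n+3)`, `4 β_n(I) ≥ β_n(V) ≥ 3 · 2^n`.
-/

set_option autoImplicit false

namespace Pool.Agent.Results.MP_ae0d71_al.ComplexityDiffers

open Pool.Agent.T2H43.LK

/-- There are a Gorenstein local ring `S`, a Gorenstein perfect ideal `a` and proper ideals `I`, `J`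
linked by `a`, with `S/I` and `S/J` Cohen-Macaulay, such that `cx_S(J) ≤ 3` and `cx_S(I) = ∞`. -/
theorem result :
    ∃ (S : Type) (_ : CommRing S) (_ : IsLocalRing S) (a I J : Ideal S),
      IsGorensteinLocal S ∧ IsGorensteinPerfect a ∧ I ≠ ⊤ ∧ J ≠ ⊤ ∧ IsLinked a I J ∧
      IsCMLocal (S ⧸ I) ∧ IsCMLocal (S ⧸ J) ∧ cx S J ≤ 3 ∧ cx S I = ⊤ := by
  refine ⟨D2 RR, inferInstance, inferInstance, ⊥, II, J1, gor, gorPerf, II_ne_top, J1_ne_top,
    linked, cm_quot _ II_ne_top, cm_quot _ J1_ne_top, ?_, ?_⟩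
  · unfold cx
    exact iInf₂_le_of_le 3 (growthLe_three betti_J1) le_rfl
  · unfold cx
    rw [iInf₂_eq_top]
    intro d hd
    exact absurd hd (not_growthLe betti_II d)

end Pool.Agent.Results.MP_ae0d71_al.ComplexityDiffers
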